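import Pool.Agent.Work.MP_121ed1_lc.Code

/-!
Under condition (C) a secret coding scheme exists, and it can be taken scalar and linear.
-/

namespace Pool.Agent.Results.MP_121ed1_lc.SecretSum

open MeasureTheory ProbabilityTheory Pool.Agent.Work.MP_121ed1_lc

universe u

/-- For every network `(V, E)` with destination `d` and at least one edge, and every set `W ⊆ E`
of wiretapped edges satisfying condition (C), there are real local coefficients `α`, `β`, `γ` and
real edge signals `Y` (functions of the source values `x`) such that every node sends along each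
outgoing edge the prescribed linear combination of its inputs, the destination outputs the sum
of the source values, and for independent standard Gaussian sources the family of wiretapped
signals is independent of the sum. -/
theorem result {V : Type} [Fintype V] [DecidableEq V] (E : Finset (V × V)) (d : V)
    (hN : IsNetwork E d) (hE : E.Nonempty) (W : Finset (V × V)) (hW : W ⊆ E)
    (hC : CondC E W d) :
    ∃ (α : V → V → V → ℝ) (β : V → V → ℝ) (γ : V → ℝ) (Y : (sources E → ℝ) → V × V → ℝ),
      (∀ x v w, (v, w) ∈ E → Y x (v, w) =
        ∑ u with (u, v) ∈ E, α u v w * Y x (u, v) +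
          if h : v ∈ sources E then β v w * x ⟨v, h⟩ else 0) ∧
      (∀ x, ∑ u with (u, d) ∈ E, γ u * Y x (u, d) = ∑ s, x s) ∧
      ∀ (Ω : Type u) [MeasurableSpace Ω] (P : Measure Ω) (X : sources E → Ω → ℝ),
        (∀ s, HasLaw (X s) (gaussianReal 0 1) P) → iIndepFun X P →
        IndepFun (fun ω (e : W) => Y (fun s => X s ω) e) (fun ω => ∑ s, X s ω) P := by
  obtain ⟨α, β, c, h1, h2, h3⟩ := exists_code E d hN hE W hW hC
  refine ⟨α, β, fun _ => 1, fun x e => ∑ s, c e s * x s, h1, h2, ?_⟩
  intro Ω _ P X hX hind
  exact indep_of_sum_zero (fun e : W => c e) (fun e => h3 e e.2) P X hX hind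

end Pool.Agent.Results.MP_121ed1_lc.SecretSum
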